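import Pool.Agent.helper66.WD.Spec

/-!
# Project WD (MP_dc9173_lc), row EXR: the exact relation over a field
-/

universe u

set_option autoImplicit false

namespace Pool.Agent.WD

open MvPolynomial Pool.Agent.helper92.VC

theorem EXR_emb_inj (n : ℕ) (K : Type u) [Field K] :
    Function.Injective (emb : MvPolynomial (Fin n) K → MvPolynomial (Fin n ⊕ Fin n) K) :=
  rename_injective _ Sum.inl_injective

theorem EXR_emb_ne (n : ℕ) (K : Type u) [Field K] (q : MvPolynomial (Fin n) K) (hq : q ≠ 0) :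
    (emb q : MvPolynomial (Fin n ⊕ Fin n) K) ≠ 0 := by
  intro h
  exact hq (EXR_emb_inj n K (h.trans (map_zero _).symm))

theorem EXR_emb_sum (n c w : ℕ) (K : Type u) [Field K] (A : Fin c → MvPolynomial (Fin n) K)
    (P : Fin w → MvPolynomial (Fin n) K) (κ : Fin c → K) (a : Fin c → Fin c → ℕ)
    (p : Fin c → Fin w → ℕ) :
    (emb (∑ i, C (κ i) * (∏ j, A j ^ a i j) * ∏ j, P j ^ p i j) :
      MvPolynomial (Fin n ⊕ Fin n) K) =
      ∑ i, C (κ i) * (∏ j, emb (A j) ^ a i j) * ∏ j, emb (P j) ^ p i j := by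
  rw [map_sum]
  refine Finset.sum_congr rfl fun i _ => ?_
  rw [map_mul, map_mul, map_prod, map_prod]
  simp only [map_pow]
  congr 2
  exact rename_C _ _

theorem EXR (hREL : REL_stmt.{u}) (hKIL : KIL_stmt.{u}) (hEXP : EXP_stmt.{u})
    (hDER : DER_stmt.{u}) : EXR_stmt.{u} := by
  intro K _ n c w A P κ a p hA hP
  obtain ⟨hDD, -, hC, -⟩ := hDER n K
  have hLam : ((∏ j, (emb (A j) : MvPolynomial (Fin n ⊕ Fin n) K)) * ∏ j, emb (P j)) ≠ 0 :=
    mul_ne_zero (Finset.prod_ne_zero_iff.mpr fun j _ => EXR_emb_ne n K _ (hA j))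
      (Finset.prod_ne_zero_iff.mpr fun j _ => EXR_emb_ne n K _ (hP j))
  obtain ⟨L, hL, hρ, htop⟩ := hKIL (MvPolynomial (Fin n ⊕ Fin n) K) DD hDD c
    ((∏ j, emb (A j)) * ∏ j, emb (P j))
    (fun i => hh DD (fun j => emb (A j)) (fun j => emb (P j)) (a i) (p i)) hLam
  refine ⟨L, hL, htop, ?_⟩
  have h := (hREL (MvPolynomial (Fin n ⊕ Fin n) K) DD hDD c
    ((∏ j, emb (A j)) * ∏ j, emb (P j))
    (fun i => hh DD (fun j => emb (A j)) (fun j => emb (P j)) (a i) (p i))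
    (fun i => C (κ i) * (∏ j, emb (A j) ^ a i j) * ∏ j, emb (P j) ^ p i j)
    (fun i => hEXP _ DD hDD c w (fun j => emb (A j)) (fun j => emb (P j)) (C (κ i)) (a i) (p i)
      (hC _)) L).2
  rw [EXR_emb_sum, h]
  exact Finset.sum_eq_zero fun i _ => by rw [hρ i, zero_mul]

end Pool.Agent.WD
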