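import Pool.Agent.helper66.WD.Spec

/-!
# Project WD (MP_dc9173_lc), row SM1: the rank of the set `VV`
-/

universe u

set_option autoImplicit false

namespace Pool.Agent.WD

open MvPolynomial Pool.Agent.helper92.VC

theorem SM1_dim (n : ℕ) (K : Type u) [Field K] (S : Set (MvPolynomial (Fin n) K))
    (hS : ∀ p ∈ S, p = 0 ∨ p = 1) : DimP 1 S := by
  refine ⟨fun _ => 1, fun p hp => ?_⟩
  rcases hS p hp with h | h
  · rw [h]
    exact Submodule.zero_mem _
  · rw [h]
    exact Submodule.subset_span ⟨0, rfl⟩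

theorem SM1_one (n : ℕ) (K : Type u) [Field K] (l : List (Fin n)) :
    ∀ S : Set (MvPolynomial (Fin n) K), (∀ p ∈ S, p = 0 ∨ p = 1) → RP 1 l S := by
  induction l with
  | nil =>
    intro S hS
    exact SM1_dim n K S hS
  | cons x s ih =>
    intro S hS
    refine ⟨SM1_dim n K S hS, ih _ ?_⟩
    rintro q ⟨p, hp, j, rfl⟩
    rcases hS p hp with h | h
    · left
      rw [h, cf, map_zero, Polynomial.coeff_zero]
    · rw [h, cf, map_one, Polynomial.coeff_one]
      by_cases hj : j = 0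
      · right
        rw [if_pos hj]
      · left
        rw [if_neg hj]

theorem SM1 (hFRP : FRP_stmt.{u}) (hSHP : SHP_stmt.{u}) (hUNP : UNP_stmt.{u})
    (hSYP : SYP_stmt.{u}) (hHOP : HOP_stmt.{u}) (hSPP : SPP_stmt.{u}) (hMNP : MNP_stmt.{u}) :
    SM1_stmt.{u} := by
  intro n K _ c D τ g α hg
  have h1 : ∀ i, RP c (List.ofFn τ) (shift α '' {g i}) := fun i =>
    hSHP n K c (List.ofFn τ) {g i} α (hFRP n K c τ (g i) (hg i))
  obtain ⟨S, hS⟩ : ∃ S : Fin (c + 1) → Set (MvPolynomial (Fin n) K),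
      S = Fin.cons {1} fun i => shift α '' {g i} := ⟨_, rfl⟩
  have h2 : ∀ i, RP (c + 1) (List.ofFn τ) (S i) := by
    intro i
    rw [hS]
    refine Fin.cases ?_ (fun i => ?_) i
    · rw [Fin.cons_zero]
      exact hMNP n K 1 (c + 1) _ _ _ (by omega) (Set.Subset.refl _)
        (SM1_one n K _ {1} fun p hp => Or.inr hp)
    · rw [Fin.cons_succ]
      exact hMNP n K c (c + 1) _ _ _ (by omega) (Set.Subset.refl _) (h1 i)
  have h3 := hSPP n K ((c + 1) * (c + 1)) (List.ofFn τ) _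
    (hUNP n K (c + 1) (c + 1) (List.ofFn τ) S h2)
  have h4 : RP ((c + 1) * (c + 1)) (List.ofFn τ)
      {p : MvPolynomial (Fin n) K | ∃ i, p = shift α (g i) - C (eval α (g i))} := by
    refine hMNP n K _ _ _ _ _ le_rfl ?_ h3
    rintro p ⟨i, rfl⟩
    refine Submodule.sub_mem _ (Submodule.subset_span (Set.mem_iUnion.mpr ⟨i.succ, ?_⟩)) ?_
    · rw [hS, Fin.cons_succ]
      exact ⟨g i, rfl, rfl⟩
    · have e : (C (eval α (g i)) : MvPolynomial (Fin n) K) = eval α (g i) • 1 := by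
        rw [smul_eq_C_mul, mul_one]
      rw [e]
      refine Submodule.smul_mem _ _ (Submodule.subset_span (Set.mem_iUnion.mpr ⟨0, ?_⟩))
      rw [hS, Fin.cons_zero]
      exact rfl
  refine hMNP n K _ _ _ _ _ le_rfl ?_
    (hHOP n K _ D (List.ofFn τ) _ (hSYP n K _ D (List.ofFn τ) _ h4))
  rintro q ⟨L, hL, hlen, j, hj, rfl⟩
  exact ⟨L.prod, ⟨L, hL, hlen, rfl⟩, j, hj, rfl⟩

end Pool.Agent.WD
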